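import Pool.Agent.Results.MP_52f683_gt.Hyperconnected
import Pool.Agent.H376R4.Thin6

/-!
# Thin Frechet-Urysohn spaces are finite
-/

set_option autoImplicit false

open Set Topology Function Filter

universe u

namespace Pool.Agent.Results.MP_52f683_gt.FrechetUrysohn

/-- Any two homeomorphic subsets are exchanged by a homeomorphism of the whole space. -/
def Thin (S : Type u) [TopologicalSpace S] : Prop :=
  ∀ A B : Set S, Nonempty (A ≃ₜ B) → ∃ h : S ≃ₜ S, ⇑h '' A = B

theorem fu_quot (S : Type u) [TopologicalSpace S] [FrechetUrysohnSpace S] :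
    FrechetUrysohnSpace (SeparationQuotient S) := by
  refine ⟨fun s q hq => ?_⟩
  obtain ⟨x, rfl⟩ := SeparationQuotient.surjective_mk q
  have h1 : x ∈ closure ((SeparationQuotient.mk : S → SeparationQuotient S) ⁻¹' s) := by
    rw [← SeparationQuotient.isOpenMap_mk.preimage_closure_eq_closure_preimage
      SeparationQuotient.continuous_mk]
    exact hq
  obtain ⟨t, ht, hlim⟩ := mem_closure_iff_seq_limit.1 h1
  exact ⟨fun n => SeparationQuotient.mk (t n), ht,
    (SeparationQuotient.continuous_mk.tendsto x).comp hlim⟩

theorem result (S : Type u) [TopologicalSpace S] [FrechetUrysohnSpace S] (hS : Thin S) :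
    Finite S := by
  by_contra hfin
  rw [not_finite_iff_infinite] at hfin
  obtain ⟨_, hT, hI, hT1, _⟩ := Hyperconnected.result S hS
  have hne : Nonempty (SeparationQuotient S) := hI.nonempty
  have hfu := fu_quot S
  exact Pool.Agent.H376R4.no_fu hT (Hyperconnected.homog hT)
    (Hyperconnected.not_open_singleton hT)

end Pool.Agent.Results.MP_52f683_gt.FrechetUrysohn
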